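import Pool.Agent.Helper77.RL.Goals

set_option autoImplicit false

namespace Pool.Agent.Helper48.RL

open NumberField Polynomial Module IsDedekindDomain Pool.Agent.Helper51.SigLeo
open Pool.Agent.Helper51.RP Pool.Agent.Helper77.RL

theorem l_fix : L_FIX := by
  classical
  intro p hp M M' _ _ _ _ _ n hn V hV1 hV2 hV3
  obtain ⟨x₀, hx₀, hx₀'⟩ := hV3
  -- the group
  have hcard : Nat.card (M' ≃ₐ[M] M') = p ^ n := by
    rw [IsGalois.card_aut_eq_finrank, hn]
  have hG : IsPGroup p (M' ≃ₐ[M] M') := IsPGroup.of_card hcard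
  haveI : Finite (M' ≃ₐ[M] M') := Nat.finite_of_card_ne_zero (by
    rw [hcard]; exact pow_ne_zero _ hp.out.ne_zero)
  -- the subgroup of p-th powers
  set N : Subgroup M'ˣ := (powMonoidHom p : M'ˣ →* M'ˣ).range with hN
  have hNmem : ∀ x : M'ˣ, x ∈ N ↔ Pw p x := by
    intro x
    rw [hN, MonoidHom.mem_range]
    constructor
    · rintro ⟨y, hy⟩; exact ⟨y, hy.symm⟩
    · rintro ⟨y, hy⟩; exact ⟨y, hy.symm⟩
  let u : (M' ≃ₐ[M] M') → (M'ˣ →* M'ˣ) := fun g => Units.map ((g : M' →+* M') : M' →* M')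
  have hu : ∀ g, N ≤ N.comap (u g) := by
    intro g x hx
    rw [Subgroup.mem_comap, hNmem]
    obtain ⟨y, hy⟩ := (hNmem x).1 hx
    exact ⟨u g y, by rw [hy, map_pow]⟩
  let f : (M' ≃ₐ[M] M') → (M'ˣ ⧸ N →* M'ˣ ⧸ N) := fun g => QuotientGroup.map N N (u g) (hu g)
  have hf : ∀ g (x : M'ˣ), f g (QuotientGroup.mk x) = QuotientGroup.mk (u g x) := fun g x => rfl
  let W : Subgroup (M'ˣ ⧸ N) := Subgroup.closure (Set.range fun g => QuotientGroup.mk (u g x₀))
  have hWf : ∀ g, ∀ w ∈ W, f g w ∈ W := by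
    intro g
    have : W ≤ W.comap (f g) := by
      refine (Subgroup.closure_le _).2 ?_
      rintro _ ⟨h, rfl⟩
      refine Subgroup.subset_closure ⟨g * h, ?_⟩
      rw [hf]
      rfl
    exact fun w hw => this hw
  have hWV : W ≤ V.map (QuotientGroup.mk' N) := by
    refine (Subgroup.closure_le _).2 ?_
    rintro _ ⟨h, rfl⟩
    exact ⟨u h x₀, hV2 h x₀ hx₀, rfl⟩
  have htors : Monoid.IsTorsion W := by
    intro w
    rw [isOfFinOrder_iff_pow_eq_one]
    refine ⟨p, hp.out.pos, ?_⟩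
    obtain ⟨w, hw⟩ := w
    obtain ⟨x, rfl⟩ := QuotientGroup.mk_surjective w
    refine Subtype.ext ?_
    change (QuotientGroup.mk x : M'ˣ ⧸ N) ^ p = 1
    rw [← QuotientGroup.mk_pow, QuotientGroup.eq_one_iff, hNmem]
    exact ⟨x, rfl⟩
  haveI : Group.FG W := by
    rw [Group.fg_iff_subgroup_fg]
    exact ⟨(Set.range fun g => (QuotientGroup.mk (u g x₀) : M'ˣ ⧸ N)).toFinite.toFinset, by
      rw [Set.Finite.coe_toFinset]⟩
  haveI : Finite W := CommGroup.finite_of_fg_torsion W htors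
  have hWp : IsPGroup p W := by
    intro w
    refine ⟨1, ?_⟩
    obtain ⟨w, hw⟩ := w
    obtain ⟨x, rfl⟩ := QuotientGroup.mk_surjective w
    refine Subtype.ext ?_
    change (QuotientGroup.mk x : M'ˣ ⧸ N) ^ p ^ 1 = 1
    rw [pow_one, ← QuotientGroup.mk_pow, QuotientGroup.eq_one_iff, hNmem]
    exact ⟨x, rfl⟩
  have hdvd : p ∣ Nat.card W := by
    obtain ⟨k, hk⟩ := (IsPGroup.iff_card).1 hWp
    rcases Nat.eq_zero_or_pos k with rfl | hk0
    · exfalso
      rw [pow_zero, Nat.card_eq_one_iff_unique] at hk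
      obtain ⟨hk1, _⟩ := hk
      have h1 : (⟨QuotientGroup.mk (u 1 x₀), Subgroup.subset_closure ⟨1, rfl⟩⟩ : W) = 1 :=
        Subsingleton.elim _ _
      have h2 : (QuotientGroup.mk (u 1 x₀) : M'ˣ ⧸ N) = 1 := congrArg Subtype.val h1
      rw [QuotientGroup.eq_one_iff, hNmem] at h2
      apply hx₀'
      have h3 : u 1 x₀ = x₀ := Units.ext rfl
      rwa [h3] at h2
    · rw [hk]; exact dvd_pow_self p hk0.ne'
  letI : MulAction (M' ≃ₐ[M] M') W :=
    { smul := fun g w => ⟨f g w.1, hWf g w.1 w.2⟩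
      one_smul := by
        rintro ⟨w, hw⟩
        obtain ⟨x, rfl⟩ := QuotientGroup.mk_surjective w
        refine Subtype.ext ?_
        change f 1 (QuotientGroup.mk x) = QuotientGroup.mk x
        rw [hf]
        congr 1
      mul_smul := by
        rintro g h ⟨w, hw⟩
        obtain ⟨x, rfl⟩ := QuotientGroup.mk_surjective w
        refine Subtype.ext ?_
        change f (g * h) (QuotientGroup.mk x) = f g (f h (QuotientGroup.mk x))
        rw [hf, hf, hf]
        congr 1 }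
  have hone : (1 : W) ∈ MulAction.fixedPoints (M' ≃ₐ[M] M') W := by
    intro g
    refine Subtype.ext ?_
    change f g 1 = 1
    exact map_one _
  obtain ⟨b, hb, hb1⟩ := hG.exists_fixed_point_of_prime_dvd_card_of_fixed_point W hdvd hone
  obtain ⟨x, hxV, hx⟩ := hWV b.2
  have hx' : (QuotientGroup.mk x : M'ˣ ⧸ N) = b.1 := hx
  refine ⟨x, hxV, ?_, ?_⟩
  · intro h
    apply hb1
    refine Subtype.ext ?_
    rw [← hx']
    exact ((QuotientGroup.eq_one_iff x).2 ((hNmem x).2 h)).symm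
  · intro g
    have h1 : f g b.1 = b.1 := congrArg Subtype.val (hb g)
    rw [← hx', hf, QuotientGroup.eq, hNmem] at h1
    obtain ⟨y, hy⟩ := h1
    refine ⟨y⁻¹, ?_⟩
    rw [inv_pow, ← hy]
    rw [mul_inv_rev, inv_inv]
    change u g x / x = _
    rw [div_eq_mul_inv, mul_comm]

end Pool.Agent.Helper48.RL
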