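import Pool.Agent.Helper77.RL.Goals3

set_option autoImplicit false

namespace Pool.Agent.Helper48.RL

open NumberField Polynomial Module IsDedekindDomain Pool.Agent.Helper51.SigLeo
open Pool.Agent.Helper51.RP Pool.Agent.Helper77.RL

/-- A root of unity of prime power order which is close to `1` is `1`. -/
lemma root_close {F : Type} [Field F] {Γ : Type} [LinearOrderedCommGroupWithZero Γ]
    (v : Valuation F Γ) (p : ℕ) [Fact p.Prime] (n : ℕ)
    (η : F) (h1 : η ^ p ^ n = 1) (h2 : v (η - 1) < v (p : F)) : η = 1 := by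
  classical
  by_contra hne
  obtain ⟨k, hk, hk2⟩ := (Nat.dvd_prime_pow (Fact.out (p := p.Prime))).1 (orderOf_dvd_of_pow_eq_one h1)
  have hk0 : k ≠ 0 := by
    rintro rfl
    rw [pow_zero, orderOf_eq_one_iff] at hk2
    exact hne hk2
  obtain ⟨m, rfl⟩ := Nat.exists_eq_succ_of_ne_zero hk0
  have hprim : IsPrimitiveRoot η (p ^ (m + 1)) := by
    rw [← Nat.succ_eq_add_one, ← hk2]
    exact IsPrimitiveRoot.orderOf η
  have hone : ∀ μ : F, μ ^ p ^ (m + 1) = 1 → v μ = 1 := by
    intro μ hμ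
    have h3 : v μ ^ p ^ (m + 1) = 1 := by rw [← map_pow, hμ, map_one]
    exact (pow_eq_one_iff.1 h3).resolve_right (pow_ne_zero _ (Fact.out (p := p.Prime)).ne_zero)
  have hprod : (p : F) = ∏ μ ∈ primitiveRoots (p ^ (m + 1)) F, (1 - μ) := by
    have h4 := congrArg (Polynomial.eval (1 : F))
      (Polynomial.cyclotomic_eq_prod_X_sub_primitiveRoots hprim)
    rw [Polynomial.eval_one_cyclotomic_prime_pow, Polynomial.eval_prod] at h4
    simpa using h4
  have hmem : η ∈ primitiveRoots (p ^ (m + 1)) F :=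
    (mem_primitiveRoots (pow_pos (Fact.out (p := p.Prime)).pos _)).2 hprim
  rw [← Finset.mul_prod_erase _ _ hmem] at hprod
  have hle : v (∏ μ ∈ (primitiveRoots (p ^ (m + 1)) F).erase η, (1 - μ)) ≤ 1 := by
    rw [map_prod]
    refine Finset.prod_le_one' fun μ hμ => ?_
    have hμ2 : IsPrimitiveRoot μ (p ^ (m + 1)) :=
      isPrimitiveRoot_of_mem_primitiveRoots (Finset.mem_of_mem_erase hμ)
    refine (v.map_sub 1 μ).trans ?_
    rw [map_one, hone μ hμ2.pow_eq_one, max_self]
  have h5 : v (p : F) ≤ v (η - 1) := by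
    rw [hprod, map_mul, v.map_sub_swap]
    exact mul_le_of_le_one_right' hle
  exact absurd h2 (not_lt.2 h5)

theorem x_spl : X_SPL := by
  classical
  intro p hp n K E F _ _ _ _ _ _ _ _ _ _ ξ b hK 𝔓 hclose g hg i hi
  have hpres : ∀ (j : ℕ) (x : F), 𝔓.valuation F ((g ^ j) x) = 𝔓.valuation F x := by
    intro j
    induction j with
    | zero => intro x; rfl
    | succ j ih =>
      intro x
      rw [pow_succ, AlgEquiv.mul_apply, ih, hg]
  have hN : 0 < p ^ n := pow_pos hp.out.pos _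
  have hprimF : IsPrimitiveRoot (algebraMap E F ξ) (p ^ n) :=
    hK.prim.map_of_injective (algebraMap E F).injective
  refine hK.gen _ hi ?_
  intro σ β hβ
  have hβ0 : β ≠ 0 := by
    rintro rfl
    rw [zero_pow hN.ne'] at hβ
    have h1 : σ b = 0 := (algebraMap E F).injective (by rw [← hβ, map_zero])
    exact hK.ne ((map_eq_zero_iff σ σ.injective).1 h1)
  -- the product
  have hprod : β ^ (p ^ n) - 1 ^ (p ^ n) = ∏ ζ ∈ nthRootsFinset (p ^ n) (1 : F), (β - ζ * 1) :=
    hprimF.pow_sub_pow_eq_prod_sub_mul β 1 hN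
  have hex : ∃ ζ ∈ nthRootsFinset (p ^ n) (1 : F), 𝔓.valuation F (β - ζ) < 𝔓.valuation F (p : F) := by
    by_contra hcon
    push Not at hcon
    have h2 := hclose σ
    rw [← hβ] at h2
    rw [one_pow] at hprod
    rw [hprod, map_prod] at h2
    have h3 : 𝔓.valuation F (p : F) ^ (p ^ n) ≤
        ∏ ζ ∈ nthRootsFinset (p ^ n) (1 : F), 𝔓.valuation F (β - ζ * 1) := by
      have h4 := Finset.prod_le_prod' (s := nthRootsFinset (p ^ n) (1 : F))
        (f := fun _ => 𝔓.valuation F (p : F)) (g := fun ζ => 𝔓.valuation F (β - ζ * 1))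
        (fun ζ hζ => by rw [mul_one]; exact hcon ζ hζ)
      rwa [Finset.prod_const, hprimF.card_nthRootsFinset] at h4
    exact absurd h2 (not_lt.2 h3)
  obtain ⟨ζ, hζ, hζ2⟩ := hex
  have hζN : ζ ^ (p ^ n) = 1 := (mem_nthRootsFinset hN (1 : F)).1 hζ
  obtain ⟨j, -, hj⟩ := hprimF.eq_pow_of_pow_eq_one hζN
  have hζfix : (g ^ i) ζ = ζ := by
    rw [← hj, ← map_pow, hi]
  set h := g ^ i with hh
  set η := h β / β with hη
  have hηN : η ^ (p ^ n) = 1 := by
    rw [hη, div_pow, ← map_pow, hβ, hi]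
    exact div_self (by
      rw [← hβ]; exact pow_ne_zero _ hβ0)
  have hηβ : h β = η * β := by
    rw [hη]; field_simp
  have hvη : 𝔓.valuation F η = 1 := by
    have h3 : 𝔓.valuation F η ^ (p ^ n) = 1 := by rw [← map_pow, hηN, map_one]
    exact (pow_eq_one_iff.1 h3).resolve_right hN.ne'
  have hvζ : 𝔓.valuation F ζ = 1 := by
    have h3 : 𝔓.valuation F ζ ^ (p ^ n) = 1 := by rw [← map_pow, hζN, map_one]
    exact (pow_eq_one_iff.1 h3).resolve_right hN.ne'
  have h4 : 𝔓.valuation F (η * β - ζ) < 𝔓.valuation F (p : F) := by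
    have h5 := hpres i (β - ζ)
    rw [← hh, map_sub, hζfix, hηβ] at h5
    rw [h5]; exact hζ2
  have h6 : 𝔓.valuation F (η * β - η * ζ) < 𝔓.valuation F (p : F) := by
    rw [← mul_sub, map_mul, hvη, one_mul]; exact hζ2
  have h7 : 𝔓.valuation F (η - 1) < 𝔓.valuation F (p : F) := by
    have h8 : (η - 1) * ζ = (η * β - ζ) - (η * β - η * ζ) := by ring
    have h9 : 𝔓.valuation F ((η - 1) * ζ) = 𝔓.valuation F (η - 1) := by
      rw [map_mul, hvζ, mul_one]
    rw [← h9, h8]
    exact ((𝔓.valuation F).map_sub _ _).trans_lt (max_lt h4 h6)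
  have h10 := root_close (𝔓.valuation F) p n η hηN h7
  rw [hηβ, h10, one_mul]

end Pool.Agent.Helper48.RL
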