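import Mathlib
import Pool.Agent.Helper18.RL.Goals

set_option autoImplicit false

/-!
PROJECT RL (MP_0c2bb8_co), packet RL-VIO.
-/

namespace Pool.Agent.Helper48.RL

open Finset Pool.Agent.Helper37.RG3 Pool.Agent.Helper18.RL

theorem rr_ct_singleton {V : Type} [Fintype V] [DecidableEq V] {U : Finset V} {w : V → V → ℕ}
    {r : ℕ} (h : RR U w r) {u : V} (hu : u ∈ U) : ct w {u} = r := by
  unfold ct
  rw [bt_singleton_left]
  have h1 := Finset.sum_add_sum_compl ({u} : Finset V) (fun b => w u b)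
  rw [Finset.sum_singleton, h.irr, zero_add, h.deg u hu] at h1
  exact h1

theorem gvio (hCUT : G_CUT) (hSTB : G_STB) (hOCY : G_OCY) (hTRI : G_TRI) : G_VIO := by
  intro V _ _ U X w r h hXU hXo hXr h3
  by_contra hno
  have hno' : ∀ S, S ⊆ X → ¬ LO (Adj w) S := fun S hS hL => hno ⟨S, hS, hL⟩
  have hsymm : ∀ x y, Adj w x y → Adj w y x := by
    intro x y hxy hyx
    exact hxy (by rw [h.symm]; exact hyx)
  have hirr : ∀ x, ¬ Adj w x x := fun x hx => hx (h.irr x)
  classical
  obtain ⟨Y, hY, hmin⟩ := Finset.exists_min_image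
    (X.powerset.filter fun Y => Odd Y.card ∧ ct w Y < r) Finset.card
    ⟨X, Finset.mem_filter.2 ⟨Finset.mem_powerset.2 Finset.Subset.rfl, hXo, hXr⟩⟩
  rw [Finset.mem_filter, Finset.mem_powerset] at hY
  obtain ⟨hYX, hYo, hYr⟩ := hY
  have hYU : Y ⊆ U := hYX.trans hXU
  have hsub : ∀ Z, Z ⊆ Y → Z ≠ Y → Odd Z.card → r ≤ ct w Z := by
    intro Z hZY hne hZo
    by_contra hlt
    have h1 := hmin Z (Finset.mem_filter.2
      ⟨Finset.mem_powerset.2 (hZY.trans hYX), hZo, by omega⟩)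
    have h2 := Finset.card_lt_card (Finset.ssubset_iff_subset_ne.2 ⟨hZY, hne⟩)
    omega
  have hcut : ∀ (p : V) (K L : Finset V), Y = insert p (K ∪ L) → p ∉ K → p ∉ L →
      Disjoint K L → K.Nonempty → L.Nonempty → ∃ x ∈ K, ∃ y ∈ L, Adj w x y := by
    intro p K L hYe hpK hpL hd hK hL
    by_contra hcon
    have h0 : ∀ x ∈ K, ∀ y ∈ L, w x y = 0 := by
      intro x hx y hy
      by_contra hxy
      exact hcon ⟨x, hx, y, hy, hxy⟩
    have h1 := hCUT V U Y K L p w r h hYU hYo hYe hpK hpL hd hK hL h0 hsub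
    omega
  have hc5 : 5 ≤ Y.card := by
    obtain ⟨t, ht⟩ := hYo
    have h1 : Y.card ≠ 1 := by
      intro h1
      obtain ⟨u, hu⟩ := Finset.card_eq_one.1 h1
      have h2 : u ∈ U := hYU (by rw [hu]; exact Finset.mem_singleton_self u)
      rw [hu, rr_ct_singleton h h2] at hYr
      exact lt_irrefl _ hYr
    have h4 : Y.card ≠ 3 := by
      intro h4
      have := h3 Y hYX h4
      omega
    omega
  by_cases htri : ∃ a ∈ Y, ∃ b ∈ Y, ∃ c ∈ Y, Adj w a b ∧ Adj w b c ∧ Adj w c a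
  · obtain ⟨a, ha, b, hb, c, hc, hab, hbc, hca⟩ := htri
    obtain ⟨T, hTY, hT2, hTs⟩ := hTRI V (Adj w) Y a b c hsymm hirr
      (fun S hS => hno' S (hS.trans hYX)) hcut ha hb hc hab hbc hca hc5
    have hT3 : 3 ≤ T.card := by
      have h1 := Finset.card_sdiff_add_card_eq_card hTY
      omega
    have h1 := (hSTB V U w r h).2 Y T hYU hTY hT2 hT3 (by
      intro x hx y hy
      by_contra hxy
      exact hTs x hx y hy hxy)
    omega
  · obtain ⟨P, Q, hPQ, hd, hPs, hQs⟩ := hOCY V (Adj w) Y hsymm hirr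
      (fun S hS => hno' S (hS.trans hYX)) (by
        intro a ha b hb c hc h1
        exact htri ⟨a, ha, b, hb, c, hc, h1⟩)
    have h1 := (hSTB V U w r h).1 P Q (by rw [hPQ]; exact hYU) hd (by rw [hPQ]; exact hYo)
      (by
        intro x hx y hy
        by_contra hxy
        exact hPs x hx y hy hxy)
      (by
        intro x hx y hy
        by_contra hxy
        exact hQs x hx y hy hxy)
    rw [hPQ] at h1
    omega

end Pool.Agent.Helper48.RL
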